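import Mathlib
import Pool.Agent.Q277.Ram42C
import Pool.Agent.Q277.PPow

/-!
# MP_9fec82_nt, Q1

For every prime `p > 3` and every `a ≥ 1`,
`p^(-a) ∑_{0 ≤ k ≤ (p^a-1)/2} (42k+5) C(2k,k)^3 / 4096^k ≡ (-1/p^a) (5 - (3p/4) H_{p-1}) (mod p^4)`.
-/

namespace Pool.Agent.Results.MP_9fec82_nt.HalfRangePowers

open Finset Pool.Agent.H434R2 PO

/-- `a ≡ b (mod p^m)` in the ring of rational numbers with denominator prime to `p`: `(a - b)/p^m` has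
denominator prime to `p`. -/
def RatCong (p m : ℕ) (a b : ℚ) : Prop := Nat.Coprime ((a - b) / (p : ℚ) ^ m).den p

/-- `p^(-a) ∑_{0 ≤ k ≤ (p^a-1)/2} (42k+5) C(2k,k)^3 / 4096^k` -/
def T (p a : ℕ) : ℚ := 1 / (p : ℚ) ^ a *
  ∑ k ∈ range ((p ^ a - 1) / 2 + 1), (42 * (k : ℚ) + 5) * ((2 * k).choose k : ℚ) ^ 3 / 4096 ^ k

theorem result (p : ℕ) (hp : p.Prime) (h3 : 3 < p) (a : ℕ) (ha : 1 ≤ a) :
    RatCong p 4 (T p a) ((jacobiSym (-1) (p ^ a) : ℚ) * (5 - 3 * (p : ℚ) / 4 * harmonic (p - 1))) := by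
  have : Fact p.Prime := ⟨hp⟩
  have h2 : p ≠ 2 := by omega
  have h3' : p ≠ 3 := by omega
  have hodd : Odd p := hp.odd_of_ne_two h2
  obtain ⟨n, hn⟩ : ∃ n, 2 * n + 1 = p ^ a := by
    obtain ⟨m, hm⟩ := hodd.pow (n := a)
    exact ⟨m, hm.symm⟩
  obtain ⟨n', hn'⟩ : ∃ n', 2 * n' + 1 = p := by
    obtain ⟨m, hm⟩ := hodd
    exact ⟨m, hm.symm⟩
  obtain ⟨b, rfl⟩ : ∃ b, a = b + 1 := ⟨a - 1, by omega⟩
  have hp0 : (p : ℚ) ≠ 0 := by exact_mod_cast hp.ne_zero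
  have hv := Q277.PPow.hv_of hn
  have hv' := Q277.PPow.hv_of (p := p) (n := n') (a := 1) (by rw [pow_one]; exact hn')
  have hval := Q277.Ram42.value hv h2 h3'
  have hred := Q277.PPow.PP3_reduce hn hn'
  have hQ1 := Q277.Ram42.QQ1 hv'
  have h3P := three_P2 hv' h2
  have hpQ : (2 * (n' : ℚ) + 1) = (p : ℚ) := by exact_mod_cast hn'
  have hpaQ : (2 * (n : ℚ) + 1) = (p : ℚ) ^ (b + 1) := by exact_mod_cast hn
  have eH : (p : ℚ) * harmonic (p - 1) = QQ n' 1 := by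
    unfold harmonic QQ vv
    rw [show p - 1 = 2 * n' by omega, mul_sum]
    apply Finset.sum_congr rfl
    intro i _
    rw [pow_one, hpQ, div_eq_mul_inv]
    push_cast
    rfl
  have eJ : (jacobiSym (-1) (p ^ (b + 1)) : ℚ) = (-1) ^ n := by
    rw [jacobiSym.at_neg_one (hodd.pow), ZMod.χ₄_eq_neg_one_pow (by omega),
      show p ^ (b + 1) / 2 = n by omega]
    push_cast
    rfl
  have eT : T p (b + 1) = (1 / (2 * (n : ℚ) + 1)) *
      ∑ j ∈ range (n + 1), (42 * (j : ℚ) + 5) * ((2 * j).choose j : ℚ) ^ 3 / 4096 ^ j := by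
    unfold T
    rw [hpaQ, show (p ^ (b + 1) - 1) / 2 + 1 = n + 1 by omega]
  unfold RatCong
  have hsq : ((-1 : ℚ) ^ n) * (-1) ^ n = 1 := by rw [← mul_pow]; norm_num
  have h1n : PO p 0 ((-1 : ℚ) ^ n) := by
    have := (of_int (p := p) (-1)).pow0 n
    push_cast at this
    exact this
  have t3 : PO p 0 (3 : ℚ) := of_ofNat 3
  have h14 : PO p 0 (1 / 4 : ℚ) := Q277.Ram42.quart hv h2
  have h12 : PO p 0 (1 / 2 : ℚ) := half h2
  have key : PO p 4 (T p (b + 1) - (jacobiSym (-1) (p ^ (b + 1)) : ℚ) * (5 - 3 * (p : ℚ) / 4 * harmonic (p - 1))) := by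
    have e : T p (b + 1) - (jacobiSym (-1) (p ^ (b + 1)) : ℚ) * (5 - 3 * (p : ℚ) / 4 * harmonic (p - 1))
        = (-1) ^ n * (((-1) ^ n * T p (b + 1) - (5 - 1 / 8 * PP n 3)) - (1 / 2 * (1 / 4)) * (PP n 3 - PP n' 3)
          + (3 * (1 / 4)) * (QQ n' 1 + PP n' 2 + PP n' 3) - (1 / 4) * (3 * PP n' 2 + 7 / 2 * PP n' 3)) := by
      rw [eJ, ← eH]
      linear_combination (-(T p (b + 1))) * hsq
    rw [e, eT]
    exact h1n.mul0 (((hval.sub ((h12.mul0 h14).mul0 hred)).add ((t3.mul0 h14).mul0 hQ1)).sub (h14.mul0 h3P))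
  obtain ⟨r, hr, hr2⟩ := exists_rep key
  rw [hr2, mul_comm, mul_div_assoc, div_self (pow_ne_zero 4 hp0), mul_one]
  exact hr

end Pool.Agent.Results.MP_9fec82_nt.HalfRangePowers
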